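import Mathlib
import Pool.Agent.Y57.AK.Stm

/-!
Project AK, job AK-DIM (helper983): the dimension count.
-/

set_option autoImplicit false

open Finset

namespace Pool.Agent.Y983.AK

open Pool.Agent.Y57.AK

/-- `f (p + x)` as a linear map -/
noncomputable def shl {ι : Type} (p : ι → ℚ) : MvPolynomial ι ℚ →ₗ[ℚ] MvPolynomial ι ℚ :=
  (MvPolynomial.aeval (fun i => MvPolynomial.X i + MvPolynomial.C (p i))).toLinearMap

/-- the coefficients of `f (p + x)` for `p ∈ E` and `β ∈ B`, for polynomials of degree `≤ m` -/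
noncomputable def Ph {ι : Type} (m : ℕ) (E : Finset (ι → ℚ)) (B : Finset (ι →₀ ℕ)) :
    MvPolynomial.restrictTotalDegree ι ℚ m →ₗ[ℚ] ({e // e ∈ E} × {β // β ∈ B} → ℚ) :=
  LinearMap.pi fun p => (MvPolynomial.lcoeff ℚ p.2.1) ∘ₗ (shl p.1.1) ∘ₗ
    (MvPolynomial.restrictTotalDegree ι ℚ m).subtype

theorem Ph_apply {ι : Type} (m : ℕ) (E : Finset (ι → ℚ)) (B : Finset (ι →₀ ℕ))
    (f : MvPolynomial.restrictTotalDegree ι ℚ m) (p : {e // e ∈ E} × {β // β ∈ B}) :
    Ph m E B f p = (sh p.1.1 f.1).coeff p.2.1 := rfl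

theorem t_DIM (hL : S_LINE) (hI : S_INT) (hC : S_CARD) : S_DIM := by
  classical
  intro ι _ _ S q b l D v J hS hD hb hl hlt
  obtain ⟨cb, mb⟩ := hC ι b hb
  obtain ⟨cl, ml⟩ := hC ι l hl
  set m := (q - 1) * Fintype.card ι + q * (b - 1) with hm
  set E : Finset (ι → ℚ) := J.biUnion (fun s => D.image fun d i => d i + s * v d i) with hE
  have hEc : E.card ≤ ∑ s ∈ J, (D.image fun d i => d i + s * v d i).card := card_biUnion_le
  let ΦD := Ph m D (mon ι b)
  let ΦE := Ph m E (mon ι l)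
  have hker : LinearMap.ker ΦE ≤ LinearMap.ker ΦD := by
    intro f hf
    rw [LinearMap.mem_ker] at hf ⊢
    funext p
    obtain ⟨⟨d, hd⟩, β, hβ⟩ := p
    have hfd : (f.1).totalDegree ≤ m := (MvPolynomial.mem_restrictTotalDegree ι m f.1).mp f.2
    have hv : Van b d f.1 := by
      refine hL ι J d (v d) m l b f.1 hfd ?_ hlt
      intro s hs β' hβ'
      have he : (fun i => d i + s * v d i) ∈ E :=
        mem_biUnion.mpr ⟨s, hs, mem_image.mpr ⟨d, hd, rfl⟩⟩
      have h1 := congrFun hf (⟨_, he⟩, ⟨β', (ml β').mpr hβ'⟩)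
      exact h1
    exact hv β ((mb β).mp hβ)
  have hsurj : Function.Surjective ΦD := by
    intro u
    obtain ⟨f, hf1, hf2⟩ := hI ι S q b hS (fun p β =>
      if h : p ∈ D ∧ β ∈ mon ι b then u (⟨p, h.1⟩, ⟨β, h.2⟩) else 0)
    refine ⟨⟨f, (MvPolynomial.mem_restrictTotalDegree ι m f).mpr hf1⟩, ?_⟩
    funext p
    obtain ⟨⟨d, hd⟩, β, hβ⟩ := p
    have h1 := hf2 d (hD d hd) β ((mb β).mp hβ)
    rw [dif_pos ⟨hd, hβ⟩] at h1
    exact h1
  have hfin : Module.Finite ℚ (MvPolynomial.restrictTotalDegree ι ℚ m ⧸ LinearMap.ker ΦE) :=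
    Module.Finite.equiv ΦE.quotKerEquivRange.symm
  have hq : Function.Surjective ((LinearMap.ker ΦE).liftQ ΦD hker) := by
    intro u
    obtain ⟨f, hf⟩ := hsurj u
    exact ⟨Submodule.Quotient.mk f, hf⟩
  have h1 := LinearMap.finrank_le_finrank_of_surjective hq
  have h2 : Module.finrank ℚ (MvPolynomial.restrictTotalDegree ι ℚ m ⧸ LinearMap.ker ΦE) ≤
      Module.finrank ℚ ({e // e ∈ E} × {β // β ∈ mon ι l} → ℚ) := by
    rw [ΦE.quotKerEquivRange.finrank_eq]
    exact Submodule.finrank_le _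
  have h3 := h1.trans h2
  rw [Module.finrank_fintype_fun_eq_card, Module.finrank_fintype_fun_eq_card, Fintype.card_prod,
    Fintype.card_prod, Fintype.card_coe, Fintype.card_coe, Fintype.card_coe, Fintype.card_coe,
    cb, cl] at h3
  exact h3.trans (Nat.mul_le_mul_right _ hEc)

end Pool.Agent.Y983.AK

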